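import Pool.Agent.helper53.DC.SpecH

/-! # Project dc, module H4a: geodesics between disjoint walls pass near a fixed point -/

set_option autoImplicit false

namespace Pool.Agent.helper90.DC

open Pool.Agent.helper53.DC

section

variable {B W : Type} [Group W] {M : CoxeterMatrix B} (cs : CoxeterSystem M W)

theorem H4a_car (r : Wall cs) : ∃ x, x ∈ Car cs r := by
  obtain ⟨g, i, h⟩ := r.2
  refine ⟨g, i, ?_⟩
  rw [h]
  group

theorem H4a_min (r r' : Wall cs) : ∃ x ∈ Car cs r, ∃ y ∈ Car cs r',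
    ∀ x' ∈ Car cs r, ∀ y' ∈ Car cs r', dd cs x y ≤ dd cs x' y' := by
  classical
  obtain ⟨x0, hx0⟩ := H4a_car cs r
  obtain ⟨y0, hy0⟩ := H4a_car cs r'
  have hex : ∃ n, ∃ x ∈ Car cs r, ∃ y ∈ Car cs r', dd cs x y = n := ⟨_, x0, hx0, y0, hy0, rfl⟩
  obtain ⟨x, hx, y, hy, h⟩ := Nat.find_spec hex
  refine ⟨x, hx, y, hy, fun x' hx' y' hy' => ?_⟩
  rw [h]
  exact Nat.find_min' hex ⟨x', hx', y', hy', rfl⟩

end

theorem H4a (h1 : H1_stmt) (h2 : H2_stmt) (h3 : H3_stmt) : H4a_stmt := by
  intro B W _ M cs δ hδ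
  obtain ⟨L0, hL0⟩ := h3 cs δ hδ (1 + 2 * (6 * δ + 3 + δ) + 10 * δ)
  refine ⟨(6 * δ + 3) + 2 * δ + 2 * L0 + 1, fun r r' hrr' => ?_⟩
  obtain ⟨x, hx, y, hy, hmin⟩ := H4a_min cs r r'
  refine ⟨x, fun p hp p' hp' => ?_⟩
  have hDx : DD cs r x = 1 := (mem_Car cs r x).1 hx
  have hDy : DD cs r' y = 1 := (mem_Car cs r' y).1 hy
  have hDp : DD cs r p = 1 := (mem_Car cs r p).1 hp
  have hDp' : DD cs r' p' = 1 := (mem_Car cs r' p').1 hp'
  have e1 := h2 cs δ hδ r y x p 1 hx
    (fun z' hz' => by rw [dd_comm cs y x, dd_comm cs y z']; exact hmin z' hz' y hy) hDp.le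
  have e2 := h2 cs δ hδ r' x y p' 1 hy (fun z' hz' => hmin x hx z' hz') hDp'.le
  have f1 := hδ p x y p'
  rw [dd_comm cs y x] at e1
  rw [dd_comm cs p y, dd_comm cs p x] at f1
  rw [dd_comm cs p x]
  by_cases hl : 2 * (6 * δ + 3) + 2 * δ < 2 * dd cs x y
  · rcases le_total (dd cs x p + dd cs y p') (dd cs p p' + dd cs x y) with h | h
    · rw [max_eq_right h] at f1
      omega
    · rw [max_eq_left h] at f1
      omega
  · -- the close case
    have t1 := dd_tri cs p x p'
    have t2 := dd_tri cs x p p'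
    have t3 := dd_tri cs x p' p
    rw [dd_comm cs p x] at t1
    rw [dd_comm cs p' p] at t3
    set G := dd cs x p + dd cs x p' - dd cs p p' with hG
    obtain ⟨q, hq1, hq2⟩ := exists_geo cs x p (G / 2) (by omega)
    obtain ⟨q', hq1', hq2'⟩ := exists_geo cs x p' (G / 2) (by omega)
    have g1 := hδ q x p' p
    have hqp' : dd cs q p' + G / 2 ≤ dd cs x p' + 2 * δ := by
      rw [dd_comm cs q x, dd_comm cs p' p] at g1
      rcases le_total (dd cs x q + dd cs p p') (dd cs q p + dd cs x p') with h | h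
      · rw [max_eq_right h] at g1
        omega
      · rw [max_eq_left h] at g1
        omega
    have g2 := hδ q x q' p'
    have hqq' : dd cs q q' ≤ 4 * δ := by
      rw [dd_comm cs q x] at g2
      rcases le_total (dd cs x q + dd cs q' p') (dd cs q p' + dd cs x q') with h | h
      · rw [max_eq_right h] at g2
        omega
      · rw [max_eq_left h] at g2
        omega
    have k1 := h1 cs δ hδ r x p q
    rw [hDx, hDp, max_self] at k1
    have k2 := DD_le cs r' x y
    have k3 := h1 cs δ hδ r' x p' q'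
    rw [hDp'] at k3
    have k4 := DD_le cs r' q q'
    have k3' : DD cs r' q' + dd cs x p' ≤ dd cs x q' + dd cs q' p' + (1 + 2 * dd cs x y) + 2 * δ := by
      have : max (DD cs r' x) 1 ≤ 1 + 2 * dd cs x y := max_le (by omega) (by omega)
      omega
    have hfin := hL0 r r' hrr' x q (by omega) (by omega) (by omega) (by omega)
    omega

end Pool.Agent.helper90.DC
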